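import Pool.Agent.Y192.FA.GDefs

/-!
# Heights from the weighted number of exceptional places

Job FG3 of helper192.
-/

set_option autoImplicit false

namespace Pool.Agent.Y109.FG

open FF Pool.Agent.W603.LV Pool.Agent.Y192.FA Pool.Agent.Y192

theorem t_fnum : St_fnum := by
  intro n C m hC hCm hm M _ _ _ x S hdiv hyp i
  classical
  obtain ⟨i0, -, hi0⟩ := Finset.exists_max_image Finset.univ
    (fun i => ∑ᶠ z : Place ℂ M, |z.ord (x i : M)|) ⟨i, Finset.mem_univ i⟩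
  have hmax := hi0 i (Finset.mem_univ i)
  suffices h : ((∑ᶠ z : Place ℂ M, |z.ord (x i0 : M)| : ℤ) : ℝ) ≤
      2 * C * max (2 * canDeg ℂ M + 3 * (S.card : ℝ)) 0 from
    le_trans (by exact_mod_cast hmax) h
  obtain ⟨h, hh⟩ : ∃ h : M, h = (x i0 : M) := ⟨_, rfl⟩
  have hh0 : h ≠ 0 := by
    rw [hh]
    exact (x i0).ne_zero
  -- the support
  obtain ⟨P, hP⟩ : ∃ P : Finset (Place ℂ M), ∀ z, z ∈ P ↔ z.ord h ≠ 0 :=
    ⟨(finite_support (k := ℂ) h).toFinset, fun z => by simp⟩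
  have hHsum : (∑ᶠ z : Place ℂ M, |z.ord (x i0 : M)| : ℤ) = ∑ z ∈ P, |z.ord h| := by
    rw [← hh]
    apply finsum_eq_sum_of_support_subset
    intro z hz
    rw [Finset.mem_coe, hP]
    intro h0
    apply hz
    show |z.ord h| = 0
    rw [h0, abs_zero]
  rw [hHsum]
  have hrhs : 0 ≤ 2 * C * max (2 * canDeg ℂ M + 3 * (S.card : ℝ)) 0 :=
    mul_nonneg (by linarith) (le_max_right _ _)
  by_cases hPe : P = ∅
  · rw [hPe, Finset.sum_empty, Int.cast_zero]
    exact hrhs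
  obtain ⟨z1, hz1⟩ := Finset.nonempty_iff_ne_empty.2 hPe
  have hz1' := (hP z1).1 hz1
  -- the derivation
  have hD0 := der_ne (k := ℂ) (K := M)
  have hD0h : der ℂ M h ≠ 0 := (ord_der z1 hD0 hz1').1
  obtain ⟨D, hDd⟩ : ∃ D : Derivation ℂ M M, D = (h / der ℂ M h) • der ℂ M := ⟨_, rfl⟩
  have hDh : D h = h := by
    rw [hDd, Derivation.smul_apply, smul_eq_mul, div_mul_cancel₀ _ hD0h]
  have hD : D ≠ 0 := by
    intro h0
    rw [h0] at hDh
    exact hh0 (by simpa using hDh.symm)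
  have hP1 : ∀ z ∈ P, vo z D = 1 := by
    intro z hz
    have h1 := (ord_der z hD ((hP z).1 hz)).2
    rw [hDh] at h1
    omega
  have hP0 : ∀ z, z ∉ P → vo z D ≤ 0 := by
    intro z hz
    have h1 : z.ord h = 0 := by
      by_contra h1
      exact hz ((hP z).2 h1)
    obtain ⟨g, hg, e⟩ := der_mul z (ord_unif z) hD (f := h) (Or.inr h1.ge)
    rw [hDh] at e
    have hg0 : g ≠ 0 := by
      rintro rfl
      rw [mul_zero] at e
      exact hh0 e
    have hp : D (unif z) ≠ 0 := by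
      intro h2
      rw [h2, zero_mul] at e
      exact hh0 e
    have h3 := z.ord_mul hp hg0
    rw [← e, h1] at h3
    have h4 := hg.resolve_left hg0
    have h5 : z.ord (D (unif z)) = vo z D := rfl
    omega
  obtain ⟨T, hT⟩ : ∃ T : Finset (Place ℂ M), ∀ z, z ∈ T ↔ vo z D ≠ 0 :=
    ⟨(vo_finite hD).toFinset, fun z => by simp⟩
  have hPT : P ⊆ T := by
    intro z hz
    rw [hT, hP1 z hz]
    exact one_ne_zero
  have hsum := canDeg_finset hD T fun z hz => (hT z).2 hz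
  obtain ⟨ng, hng⟩ : ∃ ng : Place ℂ M → ℤ, ∀ z, ng z = max (-(vo z D)) 0 := ⟨_, fun _ => rfl⟩
  have hng0 : ∀ z, 0 ≤ ng z := fun z => by rw [hng]; exact le_max_right _ _
  have hng1 : ∀ z, ng z = -vo z D + if z ∈ P then 1 else 0 := by
    intro z
    rw [hng]
    by_cases hz : z ∈ P
    · rw [if_pos hz, hP1 z hz]
      rfl
    · rw [if_neg hz, add_zero]
      exact max_eq_left (by have := hP0 z hz; omega)
  have hngT : ∑ z ∈ T, ng z = canDeg ℂ M + P.card := by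
    rw [Finset.sum_congr rfl fun z _ => hng1 z, Finset.sum_add_distrib, Finset.sum_neg_distrib,
      hsum, neg_neg, Finset.sum_ite_mem, Finset.inter_eq_right.2 hPT]
    simp
  obtain ⟨Q, hQ⟩ : ∃ Q : Finset (Place ℂ M), Q = T.filter fun z => vo z D < 0 := ⟨_, rfl⟩
  have hQm : ∀ z, z ∈ Q ↔ vo z D < 0 := by
    intro z
    rw [hQ, Finset.mem_filter, hT]
    constructor
    · exact fun h => h.2
    · exact fun h => ⟨h.ne, h⟩
  have hQT : Q ⊆ T := by
    rw [hQ]
    exact Finset.filter_subset _ _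
  have hQc : (Q.card : ℤ) ≤ ∑ z ∈ T, ng z := by
    have h1 : (Q.card : ℤ) = ∑ z ∈ Q, 1 := by simp
    rw [h1]
    refine le_trans (Finset.sum_le_sum fun z hz => ?_)
      (Finset.sum_le_sum_of_subset_of_nonneg hQT fun z _ _ => hng0 z)
    rw [hng]
    have := (hQm z).1 hz
    exact le_max_of_le_left (by omega)
  have hB : ∀ z : Place ℂ M, vo z D < 0 → z ∈ S ∪ Q := fun z hz =>
    Finset.mem_union_right _ ((hQm z).2 hz)
  have hbB : ∑ z ∈ S ∪ Q, (1 + ng z) ≤ S.card + 2 * (canDeg ℂ M + P.card) := by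
    rw [Finset.sum_add_distrib]
    have h1 : ∑ z ∈ S ∪ Q, ng z ≤ ∑ z ∈ T, ng z := by
      have h2 : ∑ z ∈ (S ∪ Q) ∪ T, ng z = ∑ z ∈ T, ng z := by
        refine (Finset.sum_subset Finset.subset_union_right fun z _ hz => ?_).symm
        have h3 : vo z D = 0 := by
          by_contra h3
          exact hz ((hT z).2 h3)
        rw [hng, h3]
        rfl
      rw [← h2]
      exact Finset.sum_le_sum_of_subset_of_nonneg Finset.subset_union_left fun z _ _ => hng0 z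
    have h2 : ∑ z ∈ S ∪ Q, (1 : ℤ) ≤ S.card + Q.card := by
      have := Finset.card_union_le S Q
      simp only [Finset.sum_const, nsmul_eq_mul, mul_one]
      exact_mod_cast this
    rw [hngT] at h1 hQc
    linarith
  -- the hypothesis
  have hy := hyp D hD (S ∪ Q) hB Finset.subset_union_left i0
  have hht : (⟨M, x, D, hD, S ∪ Q, hB⟩ : FA.Curve n).ht (Pi.single i0 1) 0 =
      ((∑ z ∈ P, |z.ord h| : ℤ) : ℝ) := by
    have h1 : ∀ z : Place ℂ M,
        (⟨M, x, D, hD, S ∪ Q, hB⟩ : FA.Curve n).del z (Pi.single i0 1) = z.ord h := by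
      intro z
      unfold FA.Curve.del
      rw [Finset.sum_eq_single i0]
      · rw [Pi.single_eq_same, one_mul, hh]
      · intro j _ hj
        rw [Pi.single_eq_of_ne hj, zero_mul]
      · intro hj
        exact absurd (Finset.mem_univ i0) hj
    unfold FA.Curve.ht FA.Curve.cnt FA.Curve.cav
    rw [zero_add, Int.cast_sum]
    simp_rw [h1]
    apply finsum_eq_sum_of_support_subset
    intro z hz
    rw [Finset.mem_coe, hP]
    intro h0
    apply hz
    show ((|z.ord h| : ℤ) : ℝ) = 0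
    rw [h0, abs_zero, Int.cast_zero]
  have hbBr : (⟨M, x, D, hD, S ∪ Q, hB⟩ : FA.Curve n).bB =
      ((∑ z ∈ S ∪ Q, (1 + ng z) : ℤ) : ℝ) := by
    unfold FA.Curve.bB
    rw [Int.cast_sum]
    refine Finset.sum_congr rfl fun z _ => ?_
    rw [hng]
    push_cast
    rfl
  rw [hht, hbBr] at hy
  have hbB' : ((∑ z ∈ S ∪ Q, (1 + ng z) : ℤ) : ℝ) ≤
      (S.card : ℝ) + 2 * ((canDeg ℂ M : ℝ) + P.card) := by exact_mod_cast hbB
  have hq : (m : ℤ) * (P \ S).card ≤ ∑ z ∈ P, |z.ord h| := by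
    have h1 : (m : ℤ) * (P \ S).card = ∑ z ∈ P \ S, (m : ℤ) := by
      rw [Finset.sum_const, nsmul_eq_mul, mul_comm]
    rw [h1]
    refine le_trans (Finset.sum_le_sum fun z hz => ?_)
      (Finset.sum_le_sum_of_subset_of_nonneg Finset.sdiff_subset fun z _ _ => abs_nonneg _)
    rw [Finset.mem_sdiff] at hz
    have h2 := hdiv i0 z hz.2
    rw [← hh] at h2
    exact Int.le_of_dvd (abs_pos.2 ((hP z).1 hz.1)) ((dvd_abs _ _).2 h2)
  have hq' : (m : ℝ) * ((P \ S).card : ℝ) ≤ ((∑ z ∈ P, |z.ord h| : ℤ) : ℝ) := by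
    exact_mod_cast hq
  have hp : (P.card : ℝ) ≤ (P \ S).card + S.card := by
    exact_mod_cast Finset.card_le_card_sdiff_add_card
  obtain ⟨Hr, hHr⟩ : ∃ Hr : ℝ, Hr = ((∑ z ∈ P, |z.ord h| : ℤ) : ℝ) := ⟨_, rfl⟩
  rw [← hHr] at hy hq' ⊢
  have hqn : (0 : ℝ) ≤ ((P \ S).card : ℝ) := Nat.cast_nonneg _
  have h1 : Hr ≤ C * ((S.card : ℝ) + 2 * ((canDeg ℂ M : ℝ) + P.card)) :=
    hy.trans (mul_le_mul_of_nonneg_left hbB' hC)
  have h2 : C * ((S.card : ℝ) + 2 * ((canDeg ℂ M : ℝ) + P.card)) ≤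
      C * ((S.card : ℝ) + 2 * ((canDeg ℂ M : ℝ) + ((P \ S).card + S.card))) :=
    mul_le_mul_of_nonneg_left (by linarith) hC
  have h3 : 4 * C * ((P \ S).card : ℝ) ≤ m * ((P \ S).card : ℝ) :=
    mul_le_mul_of_nonneg_right hCm hqn
  have h4 : Hr ≤ 2 * C * (2 * canDeg ℂ M + 3 * (S.card : ℝ)) := by nlinarith
  exact h4.trans (mul_le_mul_of_nonneg_left (le_max_left _ _) (by linarith))

end Pool.Agent.Y109.FG
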